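import Pool.Agent.V5helper53.EQ.Unc
import Pool.Agent.V5helper53.EQ.Sgn

/-!
# The weak polynomial Freiman-Ruzsa theorem with symmetries, and the sets with irreducible symmetry

Let `G` be any group (finite or infinite) acting on the abelian group `Γ` by automorphisms, let
`A ⊆ Γ` be finite and nonempty, `|A + g A| ≤ K |A|` for all `g ∈ G`, and `0 < ε ≤ 1`.

(1) There is a finitely generated subgroup `H`, invariant under `G`, of rank at most `(1 + ε) log₂ K`
such that every finite set `A'` with `|A' + A| ≤ K' |A|` is covered by `K' K ^ (39000 / ε ^ 3)` cosets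
of `H`, in particular (with `K' = K`) `A` and every `g A`.

(2) If all the invariant finitely generated subgroups of rank at most `(1 + ε) log₂ K` are finite (for
example if `ℚ ⊗ Γ` is an irreducible representation of dimension greater than `(1 + ε) log₂ K`) and
the elements of finite order of `Γ` are killed by `m`, then the conclusion of Q1 holds: `A` is
covered by `(2 K) ^ (2 * 10 ^ 9 (⌊log₂ m⌋ + 1) / ε ^ 3)` cosets of a finite subgroup with at most `|A|`
elements. If these subgroups are all `0`, then `|A| ≤ K ^ (40000 / ε ^ 3)`.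

(3) Signed permutations: if `Λ` is torsion-free, `A ⊆ Λ ^ n`, `|A + w A| ≤ K |A|` for all the `2 ^ n n!`
signed permutations `w` of the coordinates and `(1 + ε) log₂ K < n`, then `|A| ≤ K ^ (40000 / ε ^ 3)`.

(4) Changes of signs: if `A ⊆ Λ ^ ι` and `|A + s A| ≤ K |A|` for all the changes of signs
`s ∈ {1, -1} ^ ι` of the coordinates, then there is a set `I` of at most `(1 + ε) log₂ K` coordinates
such that `A` is covered by `K ^ (1 + 39000 / ε ^ 3)` cosets of `Λ ^ I` (`Λ` torsion-free; in general the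
differences have finite order in the coordinates outside `I`).

(5) The thresholds in (3), (4) are sharp: for all `n`, `N` there is a box `A ⊆ ℤ ^ n`, invariant under
all the signed permutations, with `|A + A| ≤ 2 ^ n |A|`, that is not covered by fewer than `N` cosets
of `ℤ ^ I` with `|I| < n` (for `n ≥ 1` this includes `I = ∅`, `|A| ≥ N`).

Proof. For a subgroup `H` let `Ent (A, H)` be the entropy of the coset mod `H` of a uniform random
element of `A`. It is a submodular function of `H`, and the rank is modular (on the subgroups with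
torsion-free quotient, that is on the subspaces of `ℚ ⊗ Γ`). So for a finite family `A_i` the functional
`∑ Ent (A_i, H) + c rank H` has a smallest minimiser `H`, which is invariant under all the
automorphisms that permute the `A_i` up to translations. Its value is at most the value of the
subgroup of the sharp weak theorem (`SharpRank`, new hand-in of this team), and with
`c` of the order of `log K / ε ^ 3` over `log₂ K` both the rank and the entropy are as claimed. For an infinite `G`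
the lemma of B. H. Neumann on coverings by cosets gives a subset of `A` with at least `|A| / K`
elements which has only finitely many images under `G` up to translations.
-/

set_option autoImplicit false
open scoped Pointwise

namespace Pool.Agent.Results.MP_dd2a7c_co.EquivariantPFR

universe u v

open Pool.Agent.V5helper53.EQ

/-- **The weak polynomial Freiman-Ruzsa theorem with symmetries.** -/
theorem result :
    -- (1)
    (∀ (Γ : Type u) [AddCommGroup Γ] [DecidableEq Γ] (G : Type v) [Group G]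
      [DistribMulAction G Γ] (A : Finset Γ) (K ε : ℝ), A.Nonempty →
      (∀ g : G, ((A + g • A).card : ℝ) ≤ K * (A.card : ℝ)) → 0 < ε → ε ≤ 1 →
      ∃ H : AddSubgroup Γ, H.FG ∧ (∀ g : G, ∀ x ∈ H, g • x ∈ H) ∧
        (∀ x ∈ H, x ∈ AddSubgroup.closure {y | ∃ g : G, ∃ a ∈ A, ∃ a' ∈ A, y = g • (a - a')}) ∧
        (Module.finrank ℤ H : ℝ) ≤ (1 + ε) * Real.logb 2 K ∧
        ∀ (A' : Finset Γ) (K' : ℝ), ((A' + A).card : ℝ) ≤ K' * (A.card : ℝ) →
          ∃ T : Finset Γ, T ⊆ A' ∧ (T.card : ℝ) ≤ K' * K ^ (39000 / ε ^ 3) ∧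
            ∀ a ∈ A', ∃ t ∈ T, a - t ∈ H) ∧
    -- (2)
    (∀ (Γ : Type u) [AddCommGroup Γ] [DecidableEq Γ] (G : Type v) [Group G]
      [DistribMulAction G Γ] (A : Finset Γ) (K ε : ℝ), A.Nonempty →
      (∀ g : G, ((A + g • A).card : ℝ) ≤ K * (A.card : ℝ)) → 0 < ε → ε ≤ 1 →
      ((∀ m : ℕ, 0 < m → (∀ x : Γ, (∃ n : ℕ, n ≠ 0 ∧ n • x = 0) → m • x = 0) →
        (∀ H : AddSubgroup Γ, H.FG → (∀ g : G, ∀ x ∈ H, g • x ∈ H) →
          (Module.finrank ℤ H : ℝ) ≤ (1 + ε) * Real.logb 2 K → Finite H) →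
        ∃ (H : AddSubgroup Γ) (T : Finset Γ), Finite H ∧ Nat.card H ≤ A.card ∧ T ⊆ A ∧
          (T.card : ℝ) ≤ (2 * K) ^ (2000000000 * (Nat.log 2 m + 1) / ε ^ 3) ∧
          ∀ a ∈ A, ∃ t ∈ T, a - t ∈ H) ∧
      ((∀ H : AddSubgroup Γ, H.FG → (∀ g : G, ∀ x ∈ H, g • x ∈ H) →
          (Module.finrank ℤ H : ℝ) ≤ (1 + ε) * Real.logb 2 K → H = ⊥) →
        (A.card : ℝ) ≤ K ^ (40000 / ε ^ 3)))) ∧
    -- (3)
    (∀ (Λ : Type u) [AddCommGroup Λ] [IsAddTorsionFree Λ] [DecidableEq Λ] (n : ℕ)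
      (A : Finset (Fin n → Λ)) (K ε : ℝ), A.Nonempty →
      (∀ (s : Fin n → ℤˣ) (σ : Equiv.Perm (Fin n)),
        ((A + A.image fun x i => (s i : ℤ) • x (σ i)).card : ℝ) ≤ K * (A.card : ℝ)) →
      0 < ε → ε ≤ 1 → (1 + ε) * Real.logb 2 K < n → (A.card : ℝ) ≤ K ^ (40000 / ε ^ 3)) ∧
    -- (4)
    (∀ (Λ : Type u) [AddCommGroup Λ] [DecidableEq Λ] (n : ℕ)
      (A : Finset (Fin n → Λ)) (K ε : ℝ), A.Nonempty →
      (∀ s : Fin n → ℤˣ,
        ((A + A.image fun x i => (s i : ℤ) • x i).card : ℝ) ≤ K * (A.card : ℝ)) →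
      0 < ε → ε ≤ 1 →
      ∃ I : Finset (Fin n), (I.card : ℝ) ≤ (1 + ε) * Real.logb 2 K ∧
        ∀ (A' : Finset (Fin n → Λ)) (K' : ℝ), ((A' + A).card : ℝ) ≤ K' * (A.card : ℝ) →
          ∃ T : Finset (Fin n → Λ), T ⊆ A' ∧ (T.card : ℝ) ≤ K' * K ^ (39000 / ε ^ 3) ∧
            ∀ a ∈ A', ∃ t ∈ T, ∀ i, i ∉ I → ∃ k : ℕ, k ≠ 0 ∧ k • (a i - t i) = 0) ∧
    -- (5)
    (∀ n N : ℕ, ∃ A : Finset (Fin n → ℤ), A.Nonempty ∧ (A + A).card ≤ 2 ^ n * A.card ∧
      (∀ s : Fin n → ℤˣ, (A.image fun x i => (s i : ℤ) • x i) = A) ∧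
      (∀ σ : Equiv.Perm (Fin n), (A.image fun x i => x (σ i)) = A) ∧
      ∀ (I : Finset (Fin n)) (T : Finset (Fin n → ℤ)), I.card < n →
        (∀ a ∈ A, ∃ t ∈ T, ∀ i, i ∉ I → a i = t i) → N ≤ T.card) := by
  refine ⟨?_, ?_, ?_, ?_, ?_⟩
  · intro Γ _ _ G _ _ A K ε hA hK hε0 hε1
    obtain ⟨H, hfg, hinv, hcl, hrk, hent⟩ := main_ent hA hK hε0 hε1
    have hAc : (0 : ℝ) < A.card := by exact_mod_cast hA.card_pos
    have hK0 : 0 < K := by
      have h1 : ((A + A).card : ℝ) ≤ K * A.card := by simpa using hK 1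
      have h2 : (A.card : ℝ) ≤ (A + A).card := by
        exact_mod_cast Finset.card_le_card_add_right hA
      nlinarith
    exact ⟨H, hfg, hinv, hcl, hrk, cover_all hA hK0 hent⟩
  · intro Γ _ _ G _ _ A K ε hA hK hε0 hε1
    exact ⟨fun m hm htor hirr => finite_case hA hK hε0 hε1 m hm htor hirr,
      fun hirr => tf_case hA hK hε0 hε1 hirr⟩
  · intro Λ _ _ _ n A K ε hA hK hε0 hε1 hn
    exact signed hA hK hε0 hε1 hn
  · intro Λ _ _ n A K ε hA hK hε0 hε1
    exact uncond hA hK hε0 hε1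
  · exact uncond_sharp

end Pool.Agent.Results.MP_dd2a7c_co.EquivariantPFR
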