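import Mathlib
import Pool.Agent.V5helper70.EQ.Main

/-!
# The polynomial Freiman-Ruzsa conjecture for sets with symmetries

Let `Γ` be an abelian group, `G` any group, finite or infinite, which acts on `Γ` by automorphisms,
and `A ⊆ Γ` finite and nonempty with `|A + g A| ≤ K |A|` for all `g ∈ G` (so `|A + A| ≤ K |A|`).
The set `A` itself need not be invariant. The subgroups below are invariant under all of `G`.

1. If `m Γ = 0`, then `A` is covered by `(2 K) ^ (287038 (⌊log₂ m⌋ + 1))` cosets of a `G`-invariant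
   subgroup of order at most `(2 K) ^ (164022 (⌊log₂ m⌋ + 1)) |A|`. So, if `Γ` has no proper nonzero
   `G`-invariant subgroup, then `|A| ≤ (2 K) ^ (451060 (⌊log₂ m⌋ + 1))` or `|A|` is at least
   `|Γ| / (2 K) ^ (164022 (⌊log₂ m⌋ + 1))`.
2. If `Γ` is arbitrary and also `|A + n A| ≤ K |A|` for all natural numbers `n`, where `n A` is the set
   of the `n a`, then `A` is covered by `K ^ 54057` cosets of a finite `G`-invariant subgroup of order
   at most `K ^ 37838 |A|`. Conversely, if `A` is covered by `M` cosets of a finite `G`-invariant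
   subgroup of order at most `M |A|`, then all these sumsets have at most `M ^ 3 |A|` elements.
3. In general, `A` is covered by `4 K ^ 16` translates of a symmetric `G`-invariant approximate group
   `B ∋ 0` with `|B| ≤ 4 K ^ 18 |A|` (`B + B` is in the union of `2 ^ 15 K ^ 105` translates of `B`), and
   Q1 for `A` and Q1 for `B` are equivalent (`Concl` is the conclusion of Q1). Moreover `A` is covered
   by `K ^ 2` cosets of a finitely generated `G`-invariant subgroup on which `G` acts through a finite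
   group, although `G` may be infinite.

Proof. In 1 and 2 the starting library gives a finite subgroup `V`, not invariant, with
`K ^ O(1)` cosets which cover `A`; hence `|V| ≤ n |V ∩ g V|` for all `g`, with `n = K ^ O(1)`. The
function `U ↦ ∑ (log |U| - 2 log |U ∩ V'|)`, where `V'` runs through the images of `V`, is submodular on
the lattice of the subgroups; a least minimiser is invariant and commensurable with `V`
(`Lat.lean`). If `V` has infinitely many images, B. H. Neumann's lemma on coverings by cosets shows that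
the elements of `V` with finite orbit form a subgroup of small index (`Fin.lean`). In 3 the set `B` is
obtained by averaging the images of `A₁ - A₁`, where `A₁` is the part of a translate of `A` which
consists of elements with finite orbit.
-/

set_option autoImplicit false

namespace Pool.Agent.Results.MP_dd2a7c_co.EquivariantSubgroups

open Finset
open scoped Pointwise
open Pool.Agent.R92.Star

universe u v

theorem result :
    (∀ (G : Type v) (Γ : Type u) [Group G] [AddCommGroup Γ] [DecidableEq Γ]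
      [DistribMulAction G Γ] (m : ℕ) (K : ℝ) (A : Finset Γ), 0 < m → (∀ x : Γ, m • x = 0) →
      A.Nonempty → (∀ g : G, ((A + A.image (fun a => g • a)).card : ℝ) ≤ K * A.card) →
      (∃ (W : AddSubgroup Γ) (T : Finset Γ), Finite W ∧ (∀ (g : G), ∀ x ∈ W, g • x ∈ W) ∧
        (Nat.card W : ℝ) ≤ (2 * K) ^ (164022 * (Nat.log 2 m + 1)) * A.card ∧
        (T.card : ℝ) ≤ (2 * K) ^ (287038 * (Nat.log 2 m + 1)) ∧
        ∀ a ∈ A, ∃ t ∈ T, a - t ∈ W) ∧
      ((∀ W : AddSubgroup Γ, (∀ (g : G), ∀ x ∈ W, g • x ∈ W) → W = ⊥ ∨ W = ⊤) →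
        (A.card : ℝ) ≤ (2 * K) ^ (287038 * (Nat.log 2 m + 1)) ∨
        (Finite Γ ∧ (Nat.card Γ : ℝ) ≤ (2 * K) ^ (164022 * (Nat.log 2 m + 1)) * A.card))) ∧
    (∀ (G : Type v) (Γ : Type u) [Group G] [AddCommGroup Γ] [DecidableEq Γ]
      [DistribMulAction G Γ] (K : ℝ) (A : Finset Γ), A.Nonempty →
      ((∀ g : G, ((A + A.image (fun a => g • a)).card : ℝ) ≤ K * A.card) →
        (∀ n : ℕ, ((A + A.image (fun a => n • a)).card : ℝ) ≤ K * A.card) →
        ∃ (W : AddSubgroup Γ) (T : Finset Γ), Finite W ∧ (∀ (g : G), ∀ x ∈ W, g • x ∈ W) ∧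
          (Nat.card W : ℝ) ≤ K ^ 37838 * A.card ∧ (T.card : ℝ) ≤ K ^ 54057 ∧
          ∀ a ∈ A, ∃ t ∈ T, a - t ∈ W) ∧
      ((∃ (W : AddSubgroup Γ) (T : Finset Γ), Finite W ∧ (∀ (g : G), ∀ x ∈ W, g • x ∈ W) ∧
          (Nat.card W : ℝ) ≤ K * A.card ∧ (T.card : ℝ) ≤ K ∧ ∀ a ∈ A, ∃ t ∈ T, a - t ∈ W) →
        (∀ g : G, ((A + A.image (fun a => g • a)).card : ℝ) ≤ K ^ 3 * A.card) ∧
        (∀ n : ℕ, ((A + A.image (fun a => n • a)).card : ℝ) ≤ K ^ 3 * A.card))) ∧
    (∀ C : ℝ, ∃ C₁ C₂ : ℝ, ∀ (G : Type v) (Γ : Type u) [Group G] [AddCommGroup Γ]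
      [DecidableEq Γ] [DistribMulAction G Γ] (K : ℝ) (A : Finset Γ), A.Nonempty →
      (∀ g : G, ((A + A.image (fun a => g • a)).card : ℝ) ≤ K * A.card) →
      (∃ B : Finset Γ, (0 : Γ) ∈ B ∧ (∀ x ∈ B, -x ∈ B) ∧ (∀ (g : G), ∀ x ∈ B, g • x ∈ B) ∧
        (B.card : ℝ) ≤ 4 * K ^ 18 * A.card ∧
        (∃ X ⊆ A, (X.card : ℝ) ≤ 4 * K ^ 16 ∧ A ⊆ X + B) ∧
        (∃ Y : Finset Γ, (Y.card : ℝ) ≤ 2 ^ 15 * K ^ 105 ∧ B + B ⊆ Y + B) ∧
        (Concl C (2 ^ 15 * K ^ 105) B → Concl C₁ K A) ∧
        (Concl C K A → Concl C₂ (2 ^ 15 * K ^ 105) B)) ∧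
      ∃ (Γ₀ : AddSubgroup Γ) (N : Subgroup G) (T : Finset Γ), Γ₀.FG ∧
        (∀ (g : G), ∀ x ∈ Γ₀, g • x ∈ Γ₀) ∧ N.FiniteIndex ∧ (∀ g ∈ N, ∀ x ∈ Γ₀, g • x = x) ∧
        (T.card : ℝ) ≤ K ^ 2 ∧ ∀ a ∈ A, ∃ t ∈ T, a - t ∈ Γ₀) := by
  have hinv : ∀ {G : Type v} {Γ : Type u} [Group G] [AddCommGroup Γ] [DistribMulAction G Γ]
      {W : AddSubgroup Γ}, (∀ g : G, g • W = W) → ∀ (g : G), ∀ x ∈ W, g • x ∈ W := by
    intro G Γ _ _ _ W h g x hx
    rw [← h g]
    exact AddSubgroup.smul_mem_pointwise_smul x g W hx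
  have hdec : ∀ {Γ : Type u} (i : DecidableEq Γ), i = Classical.decEq Γ := fun i =>
    Subsingleton.elim _ _
  refine ⟨?_, ?_, ?_⟩
  · intro G Γ _ _ i _ m K A hm htor hA hK
    obtain rfl := hdec i
    obtain ⟨W, T, hWf, hWG, hW, hT, hcov⟩ :=
      Pool.Agent.V5helper70.EQ.exponent (G := G) m hm htor K A hA hK
    refine ⟨⟨W, T, hWf, hinv hWG, hW, hT, hcov⟩, fun hirr => ?_⟩
    rcases hirr W (hinv hWG) with rfl | rfl
    · left
      refine le_trans ?_ hT
      refine Nat.cast_le.2 (Finset.card_le_card fun a ha => ?_)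
      obtain ⟨t, ht, h⟩ := hcov a ha
      rw [AddSubgroup.mem_bot, sub_eq_zero] at h
      rwa [h]
    · right
      have h1 : Finite Γ := Finite.of_surjective (fun x : (⊤ : AddSubgroup Γ) => (x : Γ))
        fun x => ⟨⟨x, AddSubgroup.mem_top x⟩, rfl⟩
      refine ⟨h1, ?_⟩
      rwa [AddSubgroup.card_top] at hW
  · intro G Γ _ _ i _ K A hA
    obtain rfl := hdec i
    let _ : DecidableEq Γ := Classical.decEq Γ
    refine ⟨fun hK hdil => ?_, ?_⟩
    · obtain ⟨W, T, hWf, hWG, hW, hT, hcov⟩ :=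
        Pool.Agent.V5helper70.EQ.dilates (G := G) K A hA hK hdil
      exact ⟨W, T, hWf, hinv hWG, hW, hT, hcov⟩
    · rintro ⟨W, T, hWf, hWG, hW, hT, hcov⟩
      have hK0 : 0 ≤ K := (Nat.cast_nonneg T.card).trans hT
      have key : ∀ f : Γ →+ Γ, (∀ x ∈ W, f x ∈ W) →
          ((A + A.image f).card : ℝ) ≤ K ^ 3 * A.card := by
        intro f hf
        have hfin : (W : Set Γ).Finite := hWf
        have hsub : A + A.image f ⊆ (T + T.image f) + hfin.toFinset := by
          intro z hz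
          obtain ⟨a, ha, b', hb', rfl⟩ := Finset.mem_add.1 hz
          obtain ⟨b, hb, rfl⟩ := Finset.mem_image.1 hb'
          obtain ⟨t, ht, h1⟩ := hcov a ha
          obtain ⟨s, hs, h2⟩ := hcov b hb
          refine Finset.mem_add.2 ⟨t + f s, Finset.add_mem_add ht (Finset.mem_image_of_mem _ hs),
            (a - t) + f (b - s), ?_, ?_⟩
          · rw [Set.Finite.mem_toFinset]
            exact W.add_mem h1 (hf _ h2)
          · rw [map_sub]
            abel
        have h1 : (A + A.image f).card ≤ T.card * T.card * hfin.toFinset.card := by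
          calc (A + A.image f).card ≤ ((T + T.image f) + hfin.toFinset).card :=
                Finset.card_le_card hsub
            _ ≤ (T + T.image f).card * hfin.toFinset.card := Finset.card_add_le
            _ ≤ (T.card * (T.image f).card) * hfin.toFinset.card :=
                Nat.mul_le_mul_right _ Finset.card_add_le
            _ ≤ (T.card * T.card) * hfin.toFinset.card :=
                Nat.mul_le_mul_right _ (Nat.mul_le_mul_left _ Finset.card_image_le)
        have h2 : (hfin.toFinset.card : ℝ) = Nat.card W := by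
          rw [← Set.ncard_eq_toFinset_card _ hfin]
          rfl
        calc ((A + A.image f).card : ℝ) ≤ (T.card : ℝ) * T.card * hfin.toFinset.card := by
              exact_mod_cast h1
          _ ≤ K * K * (K * A.card) := by
              rw [h2]
              gcongr
          _ = K ^ 3 * A.card := by ring
      refine ⟨fun g => ?_, fun n => ?_⟩
      · exact key (DistribSMul.toAddMonoidHom Γ g) (fun x hx => hWG g x hx)
      · exact key (nsmulAddMonoidHom n) (fun x hx => W.nsmul_mem hx n)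
  · intro C
    obtain ⟨C₁, C₂, h⟩ := Pool.Agent.V5helper70.EQ.q1_iff.{u, v} C
    refine ⟨C₁, C₂, ?_⟩
    intro G Γ _ _ i _ K A hA hK
    obtain rfl := hdec i
    obtain ⟨B, h1, h2, h3, h4, h5, h6, h7, h8⟩ := h G Γ K A hA hK
    obtain ⟨Γ₀, N, T, k1, k2, k3, k4, k5, k6⟩ :=
      Pool.Agent.V5helper70.EQ.finite_group (G := G) hA hK
    refine ⟨⟨B, h1, h2, ?_, h4, h5, h6, h7, h8⟩, Γ₀, N, T, k1, hinv k2, k3, k4, k5, k6⟩
    intro g x hx
    have h9 := h3 g
    rw [← h9]
    exact @Finset.smul_mem_smul_finset _ _ (Classical.decEq Γ) _ _ _ _ hx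

end Pool.Agent.Results.MP_dd2a7c_co.EquivariantSubgroups
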