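import Pool.Agent.V5helper28.PI.Red
import Pool.Agent.V5helper28.PI.Alln

/-!
# The polynomial Freiman-Ruzsa conjecture for permutation-invariant sets

`A ⊆ G ^ n` is finite, nonempty and invariant under all the permutations of the `n` coordinates (for
instance `A` is the set of the vectors in `G ^ n` whose type, or empirical distribution, belongs to a
given set) and `|A + A| ≤ K |A|`. The abelian group `G` is arbitrary, its torsion in particular. `n` is
arbitrary in 2. and 4. (a), and `n ≥ 10 ^ 9 log (2 K)` in 1., 3., 4. (b), 5.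

1. **Structure**, for `n ≥ 10 ^ 9 log (2 K)`. There is a finite subgroup `H` of `G` such that `A` is
   covered by `(2 K) ^ 100000` cosets of `{x : x c - x d ∈ H for all c, d}`, the vectors which are
   constant modulo `H`, and `|A + Z| ≤ (2 K) ^ 100000 |A|` for `Z = {z ∈ H ^ n : ∑ c, z c = 0}`.
2. **The weak form of Q1** (ranks and volumes, no convex bodies), for all `n`. If `G` is generated by
   `k` elements then `A` is covered by `(2 K) ^ 100000` cosets of `P + ⟨S⟩`, where `P` is a finite
   subgroup with `|A + P| ≤ (2 K) ^ 100000 |A|` and `|S| ≤ 10 ^ 9 k log (2 K)`, and even `|S| ≤ 2 k` if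
   `n ≥ 10 ^ 9 log (2 K)`. Example: `G` cyclic, of any order, `k = 1`.
3. **Q1**, with a subgroup (dimension `0`), if `G` is finite with `|G| ≤ (2 K) ^ c`, for each fixed `c`,
   and `n ≥ 10 ^ 9 log (2 K)`.
4. Q1 for the integers implies Q1 for the sets `A`: (a) for all `n` and all `G` generated by `k`
   elements, for each fixed `k`; (b) for `n ≥ 10 ^ 9 log (2 K)` and all `G` generated by
   `c log (2 K)` elements, for each fixed `c`. (Unconditionally there is the weak form 2.)
5. Q1 for the subgroups of the groups `(G / H) × G`, `H ≤ G` finite, implies Q1 for the sets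
   `A ⊆ G ^ n` if `n ≥ 10 ^ 9 log (2 K)`. So the number `n` of coordinates is replaced by `2`.

The constants in 3., 4. and 5. do not depend on `G`, `n`, `K`, `A`.

Proof. Let `X` be uniform on `A`, `G` finite at first. The increments of the entropic doubling of `X`
along the flag of the first coordinates add up to at most `2 log K`, so that for some `j ≤ n / 3` the
`j + 1`-st coordinate costs at most `a = 6 log K / n ≤ 1 / 40000000`, conditionally on the first `j`
coordinates. By the conditional 99 per cent theorem of the starting library (`N149.Tow`) the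
conditional law of `X_{j+1}` is, on average, `O(a)`-close to the uniform law on a coset of a subgroup
`H`. By exchangeability any two coordinates agree modulo `H` (up to a fixed translation) with
probability `1 - O(a)`, so that most elements of `A` have at most `O(log (2 K))` exceptional
coordinates. Sets of vectors with `s ≤ n / 5` nonzero coordinates which are invariant under
permutations have large doubling (an injection, and a count of binomial type), and this bounds the
number of classes of exceptional vectors by `(2 K) ^ O(1)`. The differences `x - x ∘ σ` are in `A - A`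
and, `X_{j+1}` being almost uniform on a coset of `H` given the first coordinates, they make `4 A - 4 A`
dense in a subgroup of the vectors in `H ^ n` with sum zero and support in a set of about `2 n / 3`
coordinates; a bounded number of such subgroups generate all of `Z`, and Ruzsa's covering lemma does
the rest. For infinite `G` one uses a finite quotient of the group generated by the coordinates. For
3., 4., 5.: the group of the vectors which are constant modulo `H`, modulo `Z`, is a subgroup of
`(G / H) × G` (one coordinate modulo `H`, and the sum of the coordinates); then one uses the results of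
the starting library on sets covered by few cosets of a group of small rank.
-/

set_option autoImplicit false

namespace Pool.Agent.Results.MP_dd2a7c_co.PermutationInvariant

open Finset
open scoped Pointwise

universe u

/-- `A ⊆ G ^ n` is invariant under the permutations of the `n` coordinates. -/
def PermInv {G : Type*} {n : ℕ} (A : Finset (Fin n → G)) : Prop :=
  ∀ (σ : Equiv.Perm (Fin n)), ∀ x ∈ A, (fun l => x (σ l)) ∈ A

/-- The conclusion of Q1 for the set `A`, with the constant `C`: `A` is covered by `C K ^ C` translates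
of a centred convex coset progression `ψ (ℤ ^ d ∩ B) + H` of dimension `d ≤ C log (2 K)` and volume at
most `|A|`. -/
def Structured {Γ : Type*} [AddCommGroup Γ] (C K : ℝ) (A : Finset Γ) : Prop :=
  ∃ (d : ℕ) (B : Set (Fin d → ℝ)) (ψ : (Fin d → ℤ) →+ Γ) (H : AddSubgroup Γ) (T : Finset Γ),
    (d : ℝ) ≤ C * Real.log (2 * K) ∧
    (Convex ℝ B ∧ IsCompact B ∧ (interior B).Nonempty ∧ ∀ x ∈ B, -x ∈ B) ∧ Finite H ∧
    {x : Fin d → ℤ | (fun i => (x i : ℝ)) ∈ B}.ncard * Nat.card H ≤ A.card ∧
    (T.card : ℝ) ≤ C * K ^ C ∧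
    ∀ a ∈ A, ∃ t ∈ T, ∃ x ∈ {x : Fin d → ℤ | (fun i => (x i : ℝ)) ∈ B}, ∃ h ∈ H, a = t + ψ x + h

/-- Q1 for the group `Γ`, with the constant `C`. -/
def Q1 (C : ℝ) (Γ : Type*) [AddCommGroup Γ] : Prop :=
  ∀ [DecidableEq Γ] (K : ℝ) (A : Finset Γ), A.Nonempty → ((A + A).card : ℝ) ≤ K * A.card →
    Structured C K A

/-- The hypotheses: `A ⊆ G ^ n` is nonempty and permutation invariant and `|A + A| ≤ K |A|`. -/
structure Hyp {G : Type*} [AddCommGroup G] [DecidableEq G] {n : ℕ} (K : ℝ)
    (A : Finset (Fin n → G)) : Prop where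
  nonempty : A.Nonempty
  inv : PermInv A
  doubling : ((A + A).card : ℝ) ≤ K * A.card

theorem result :
    -- 1. structure
    (∀ (G : Type u) [AddCommGroup G] [DecidableEq G] (n : ℕ) (K : ℝ) (A : Finset (Fin n → G)),
      Hyp K A → 10 ^ 9 * Real.log (2 * K) ≤ n →
      ∃ (H : AddSubgroup G) (T : Finset (Fin n → G)), Finite H ∧ T ⊆ A ∧
        (T.card : ℝ) ≤ (2 * K) ^ 100000 ∧
        (∀ a ∈ A, ∃ t ∈ T, ∀ c d : Fin n, (a - t) c - (a - t) d ∈ H) ∧
        (((A : Set (Fin n → G)) + {z : Fin n → G | (∀ c, z c ∈ H) ∧ ∑ c, z c = 0}).ncard : ℝ) ≤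
          (2 * K) ^ 100000 * A.card) ∧
    -- 2. the weak form
    (∀ (G : Type u) [AddCommGroup G] [DecidableEq G] (n : ℕ) (K : ℝ) (A : Finset (Fin n → G)),
      Hyp K A → ∀ R : Finset G, AddSubgroup.closure (R : Set G) = ⊤ →
      ∃ (P : AddSubgroup (Fin n → G)) (S T : Finset (Fin n → G)), Finite P ∧
        (((A : Set (Fin n → G)) + (P : Set (Fin n → G))).ncard : ℝ) ≤ (2 * K) ^ 100000 * A.card ∧
        (S.card : ℝ) ≤ 10 ^ 9 * (R.card * Real.log (2 * K)) ∧
        (10 ^ 9 * Real.log (2 * K) ≤ n → S.card ≤ 2 * R.card) ∧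
        (T.card : ℝ) ≤ (2 * K) ^ 100000 ∧
        ∀ a ∈ A, ∃ t ∈ T, a - t ∈ P ⊔ AddSubgroup.closure (S : Set (Fin n → G))) ∧
    -- 3. Q1 for small groups
    (∀ c : ℕ, ∃ C : ℝ, ∀ (G : Type u) [AddCommGroup G] [DecidableEq G] [Finite G] (n : ℕ) (K : ℝ)
      (A : Finset (Fin n → G)), Hyp K A → 10 ^ 9 * Real.log (2 * K) ≤ n →
      (Nat.card G : ℝ) ≤ (2 * K) ^ c → Structured C K A) ∧
    -- 4. from the integers, (a) and (b)
    (∀ (C : ℝ) (k : ℕ), ∃ C' : ℝ, Q1 C ℤ →
      ∀ (G : Type u) [AddCommGroup G] [DecidableEq G] (n : ℕ) (K : ℝ) (A : Finset (Fin n → G)),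
      Hyp K A → (∃ R : Finset G, AddSubgroup.closure (R : Set G) = ⊤ ∧ R.card ≤ k) →
      Structured C' K A) ∧
    (∀ (C : ℝ) (c : ℕ), ∃ C' : ℝ, Q1 C ℤ →
      ∀ (G : Type u) [AddCommGroup G] [DecidableEq G] (n : ℕ) (K : ℝ) (A : Finset (Fin n → G)),
      Hyp K A → 10 ^ 9 * Real.log (2 * K) ≤ n →
      (∃ R : Finset G, AddSubgroup.closure (R : Set G) = ⊤ ∧
        (R.card : ℝ) ≤ c * Real.log (2 * K)) → Structured C' K A) ∧
    -- 5. from subgroups of `(G / H) × G`
    (∀ C : ℝ, ∃ C' : ℝ,
      ∀ (G : Type u) [AddCommGroup G] [DecidableEq G] (n : ℕ) (K : ℝ) (A : Finset (Fin n → G)),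
      Hyp K A → 10 ^ 9 * Real.log (2 * K) ≤ n →
      (∀ H : AddSubgroup G, Finite H → ∀ Γ : AddSubgroup ((G ⧸ H) × G), Q1 C Γ) →
      Structured C' K A) := by
  have e9 : (10 : ℝ) ^ 9 = 1000000000 := by norm_num
  refine ⟨?_, ?_, ?_, ?_, ?_, ?_⟩
  · intro G _ _ n K A h hn
    obtain ⟨H, hH, ⟨T, hT, hTc, hcov⟩, hs⟩ :=
      V5helper28.PI.gen_main h.inv h.nonempty h.doubling (e9 ▸ hn)
    refine ⟨H, T, hH, hT, hTc, ?_, ?_⟩
    · intro a ha
      obtain ⟨t, ht, h2⟩ := hcov a ha
      exact ⟨t, ht, fun c d => h2 c d⟩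
    · have e : (V5helper28.PI.zs H (Finset.univ : Finset (Fin n)) : Set (Fin n → G)) =
          {z : Fin n → G | (∀ c, z c ∈ H) ∧ ∑ c, z c = 0} := by
        ext x
        constructor
        · intro hx
          exact ⟨hx.1, hx.2.2⟩
        · intro hx
          exact ⟨hx.1, fun l hl => absurd (Finset.mem_univ l) hl, hx.2⟩
      rw [e] at hs
      exact hs
  · intro G _ _ n K A h R hR
    rw [e9]
    by_cases hn : 1000000000 * Real.log (2 * K) ≤ n
    · obtain ⟨P, S, T, h1, h2, h3, h4, h5⟩ :=
        V5helper28.PI.weak_form h.inv h.nonempty h.doubling hn R hR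
      refine ⟨P, S, T, h1, h2, ?_, fun _ => h3, h4, h5⟩
      have hK1 : 1 ≤ K := R424.EX.one_le h.nonempty h.doubling
      have hlog : (0.69 : ℝ) ≤ Real.log (2 * K) := by
        have h1 := Real.log_two_gt_d9
        have h2 : Real.log 2 ≤ Real.log (2 * K) := Real.log_le_log (by norm_num) (by linarith)
        linarith
      have h6 : (S.card : ℝ) ≤ 2 * R.card := by exact_mod_cast h3
      have h7 : (0 : ℝ) ≤ R.card := Nat.cast_nonneg _
      nlinarith
    · obtain ⟨P, S, T, h1, h2, h3, h4, h5⟩ :=
        V5helper28.PI.weak_form_all h.inv h.nonempty h.doubling R hR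
      exact ⟨P, S, T, h1, h2, h3, fun h6 => absurd h6 hn, h4, h5⟩
  · intro c
    obtain ⟨C, hC⟩ := V5helper28.PI.q1_small.{u} c
    exact ⟨C, fun G _ _ _ n K A h hn hG =>
      hC G n K A h.nonempty h.inv h.doubling (e9 ▸ hn) hG⟩
  · intro C k
    obtain ⟨C', hC⟩ := V5helper28.PI.q1_int_all.{u} C k
    refine ⟨C', fun hZ G _ _ n K A h hR => ?_⟩
    exact hC hZ G n K A h.nonempty h.inv h.doubling hR
  · intro C c
    obtain ⟨C', hC⟩ := V5helper28.PI.q1_int.{u} C c
    refine ⟨C', fun hZ G _ _ n K A h hn hR => ?_⟩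
    exact hC hZ G n K A h.nonempty h.inv h.doubling (e9 ▸ hn) hR
  · intro C
    obtain ⟨C', hC⟩ := V5helper28.PI.q1_red.{u} C
    exact ⟨C', fun G _ _ n K A h hn hQ =>
      hC G n K A h.nonempty h.inv h.doubling (e9 ▸ hn) hQ⟩

end Pool.Agent.Results.MP_dd2a7c_co.PermutationInvariant
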