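import Pool.Agent.V5helper1.SD.All

/-!
# The Freiman-Ruzsa theorem in all abelian groups with the sharp dimension

`Covered A D n`: `A` is covered by at most `n` translates of a proper centred convex coset progression
of dimension at most `D` and volume at most `|A|`. Proper means that the elements `ψ (x) + h` are
different, so the volume is the cardinality of the progression.

Let `|A + A| ≤ K |A|` in an abelian group `Γ`.

(1) For `0 < ε ≤ 1`, `A` is covered by `(2 K) ^ (C (1 + log (1 + log (2 K))) / ε ^ 2)` translates of a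
proper centred convex coset progression of dimension at most `max 1 ((1 + ε) log₂ K)` and volume at
most `|A|`, with `C = 3 * 10 ^ 13`.
(2) For `0 < δ ≤ 1` the dimension can be at most `max 1 ⌊log₂ K + δ⌋`, with
`exp (C δ ^ (-2) (log (2 K)) ^ 3 (1 + log (1 + log (2 K))))` translates: the theorem of Freiman and Bilu
in arbitrary abelian groups, with a quasi-polynomial number of translates.
(3) The number `log₂ K` cannot be replaced by a smaller one: for `K = 2 ^ m` there are `A ⊆ ℤ ^ m` that
are not covered by fewer than `N` translates of a convex coset progression of dimension less than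
`m = log₂ K`, for every `N`. (In (1) the dimension `1` is needed for `K < 2`: arithmetic progressions.)

So the exact threshold for the dimension in Q1 is `log₂ K`, already with the number of translates of
the starting result `NearPFR` (whose dimension is `300 log (2 K)`).

Proof. Let `X ⊆ A` minimise `|X + A| / |X|`. The starting library gives progressions `P (r)`,
`r > 0`, of dimension `m = O (log K)` such that `A` is covered by few translates of `P (ρ)`. As
`X + P (0) ⊇ X`, by pigeonhole there is a scale `s` with `|X + P (s)| ≤ K ^ (ε / 8) |X + P (s / 4)|`. Let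
`Y ⊆ X + P (s / 4)` minimise `|Y + A + P (s / 2)| / |Y| ≤ K ^ (1 + ε / 8)`. The lemma of Petridis holds
for the image of `Y` under every homomorphism with finite kernel; since `Y`, `Y + F ⊆ A + P (s / 2)` for
`F ⊆ P (s / 4)` we get `|2 ^ k • Y + Y + F| ≤ K ^ ((1 + ε / 8) (k + 1)) |Y|` in every quotient of `⟨A⟩` by a
finite group. Now let `E ⊆ P (τ)`, `τ` slightly smaller than `s`, be a large set with `E - E` in a Bohr
set of a tiny radius `δ` of the spectrum of a high convolution power of the uniform measure of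
`P (τ)`. `E - E` generates, modulo a finite group, a lattice `ℤ ^ m'` which is free up to radius `1 / 2`.
If `m' > (1 + ε) log₂ K =: M`, there are `M` elements of `E - E` that are independent modulo `2`; let
`F ⊆ P (s / 4)` be the cube of the `2 ^ (k M)` sums with coefficients `0, ..., 2 ^ k - 1`. For a maximal
cluster `C` of `Y` at scale `r` and a separated subset `D` of `Y` at scale `2 ^ (k + 2) r` the sums
`2 ^ k y + d + f` are different, so `2 ^ (k M) |C| |D| ≤ K ^ ((1 + ε / 8) (k + 1)) |Y|`. Hence the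
covering number of `Y` grows by more than `K ^ (3 / 2)` at each of the scales between `δ` and `1 / 2`
if `k = ⌈3 / ε⌉`, a contradiction if `δ` is small enough.
-/

set_option autoImplicit false
open scoped Pointwise

namespace Pool.Agent.Results.MP_dd2a7c_co.SharpDimension

universe u

/-- `A` is covered by at most `n` translates `t + ψ (ℤ ^ d ∩ B) + H` of a proper centred convex coset
progression of dimension `d ≤ D` and volume `|ℤ ^ d ∩ B| |H| ≤ |A|`. -/
def Covered {Γ : Type u} [AddCommGroup Γ] (A : Finset Γ) (D n : ℝ) : Prop :=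
  ∃ (d : ℕ) (B : Set (Fin d → ℝ)) (ψ : (Fin d → ℤ) →+ Γ) (H : AddSubgroup Γ) (T : Finset Γ),
    (d : ℝ) ≤ D ∧
    Convex ℝ B ∧ IsCompact B ∧ (interior B).Nonempty ∧ (∀ x ∈ B, -x ∈ B) ∧
    Finite H ∧
    Set.InjOn (fun p : (Fin d → ℤ) × Γ => ψ p.1 + p.2)
      ({x : Fin d → ℤ | (fun i => (x i : ℝ)) ∈ B} ×ˢ (H : Set Γ)) ∧
    {x : Fin d → ℤ | (fun i => (x i : ℝ)) ∈ B}.ncard * Nat.card H ≤ A.card ∧
    (T.card : ℝ) ≤ n ∧
    ∀ a ∈ A, ∃ t ∈ T, ∃ x : Fin d → ℤ, (fun i => (x i : ℝ)) ∈ B ∧ ∃ h ∈ H, a = t + ψ x + h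

theorem covered_iff {Γ : Type u} [AddCommGroup Γ] (A : Finset Γ) (D n : ℝ) :
    V5helper1.SD.Covered A D n ↔ Covered A D n := by
  constructor
  · rintro ⟨d, B, ψ, H, T, h1, ⟨h2, h3, h4, h5⟩, h6, h7, h8, h9, h10⟩
    exact ⟨d, B, ψ, H, T, h1, h2, h3, h4, h5, h6, h7, h8, h9, h10⟩
  · rintro ⟨d, B, ψ, H, T, h1, h2, h3, h4, h5, h6, h7, h8, h9, h10⟩
    exact ⟨d, B, ψ, H, T, h1, ⟨h2, h3, h4, h5⟩, h6, h7, h8, h9, h10⟩

/-- **Freiman-Ruzsa theorem with near-polynomial bounds and the sharp dimension `(1 + ε) log₂ K`**, the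
form of Freiman and Bilu with dimension `⌊log₂ K + δ⌋`, and the optimality of `log₂ K`. -/
theorem result :
    (∀ (Γ : Type u) [AddCommGroup Γ] [DecidableEq Γ] (K ε : ℝ) (A : Finset Γ), A.Nonempty →
      ((A + A).card : ℝ) ≤ K * (A.card : ℝ) → 0 < ε → ε ≤ 1 →
      Covered A (max 1 ((1 + ε) * Real.logb 2 K))
        ((2 * K) ^ (30000000000000 * (1 + Real.log (1 + Real.log (2 * K))) / ε ^ 2))) ∧
    (∀ (Γ : Type u) [AddCommGroup Γ] [DecidableEq Γ] (K δ : ℝ) (A : Finset Γ), A.Nonempty →
      ((A + A).card : ℝ) ≤ K * (A.card : ℝ) → 0 < δ → δ ≤ 1 →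
      Covered A (max 1 (Real.logb 2 K + δ))
        (Real.exp (100000000000000 * δ⁻¹ ^ 2 * Real.log (2 * K) ^ 3 *
          (1 + Real.log (1 + Real.log (2 * K)))))) ∧
    (∀ m N : ℕ, ∃ A : Finset (Fin m → ℤ), A.Nonempty ∧
      ((A + A).card : ℝ) ≤ 2 ^ m * (A.card : ℝ) ∧
      ∀ D n : ℝ, Covered A D n → D < m → N ≤ n) := by
  refine ⟨?_, ?_, ?_⟩
  · intro Γ _ d K ε A hA hK hε0 hε1
    have hd : d = (fun a b => Classical.propDecidable (a = b)) := Subsingleton.elim _ _
    subst hd
    exact (covered_iff _ _ _).1 (V5helper1.SD.sharp hA hK hε0 hε1)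
  · intro Γ _ d K δ A hA hK hδ0 hδ1
    have hd : d = (fun a b => Classical.propDecidable (a = b)) := Subsingleton.elim _ _
    subst hd
    exact (covered_iff _ _ _).1 (V5helper1.SD.sharp_int hA hK hδ0 hδ1)
  · intro m N
    obtain ⟨A, hA, hK, h⟩ := V5helper1.SD.optimal m N
    refine ⟨A, hA, ?_, fun D n hc hD => h D n ((covered_iff _ _ _).2 hc) hD⟩
    convert hK using 3

end Pool.Agent.Results.MP_dd2a7c_co.SharpDimension
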